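import Pool.Agent.Helper37.KDB.Extra
import Pool.Agent.Helper37.KDB.St.D10
import Pool.Agent.Helper37.KDB.St.D15
import Pool.Agent.Helper37.KDB.St.D16
import Pool.Agent.Helper37.KDB.St.D17

/-! Project KDB, piece D18: the comparison theorem. -/

set_option autoImplicit false

namespace KDB.I.D18

open MeasureTheory KDB
open scoped ENNReal

variable (p : Par)

/-- the two realisations are close at time `g`, at level `i` -/
def Cl (om om' : ℕ → Nz p.d) (i g : ℕ) : Prop :=
  ‖(p.run om g).2 - (p.run om' g).2‖ ≤ p.rho i ∧ ‖(p.run om g).1 - (p.run om' g).1‖ ≤ p.xi i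

lemma ell_pos (hp : p.Ok) : (0 : ℝ) < p.ell := by
  have h1 : 0 < p.L := by have := hp.hL; omega
  have h2 : 0 < p.ell := by unfold Par.ell; exact pow_pos h1 _
  exact_mod_cast h2

lemma rho_nonneg (hp : p.Ok) (i : ℕ) : 0 ≤ p.rho i := by
  have := ell_pos p hp
  unfold Par.rho
  positivity

lemma xi_nonneg (hp : p.Ok) (i : ℕ) : 0 ≤ p.xi i := by
  have := ell_pos p hp
  unfold Par.xi
  positivity

lemma cl_zero (hp : p.Ok) (om om' : ℕ → Nz p.d) (i : ℕ) : Cl p om om' i 0 := by
  have h0 : ∀ o : ℕ → Nz p.d, p.run o 0 = 0 := fun o => rfl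
  unfold Cl
  rw [h0, h0]
  simp only [sub_self, norm_zero]
  exact ⟨rho_nonneg p hp i, xi_nonneg p hp i⟩

lemma stage (hp : p.Ok) (om om' : ℕ → Nz p.d) (hv : ∀ j, p.Valid j (om j))
    (hv' : ∀ j, p.Valid j (om' j)) (t : ℕ) (ht : t ≤ p.tau p.n) (c : ℕ → ℕ)
    (hc : ∀ i, c i ≤ 49) (he : p.fcode om t c = p.fcode om' t c) (i : ℕ) (hi : i < p.n)
    (h0 : Cl p om om' i (p.Sx t c i)) : Cl p om om' i (p.Ex t c i) := by
  obtain ⟨s1, s2, s3, s4, s5⟩ := stage_spec p hp t ht c hc i hi
  have hb : ∀ k, k < MM * p.L → p.blk om i (p.gp t c i k) (p.gp t c i (k + 1)) =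
      p.blk om' i (p.gp t c i k) (p.gp t c i (k + 1)) := by
    intro k hk
    have h1 := congrFun he ⟨i, hi⟩
    have h2 := congrArg Prod.snd h1
    exact congrFun h2 ⟨k, hk⟩
  have key : ∀ k, k ≤ MM * p.L → Cl p om om' i (p.gp t c i k) := by
    intro k
    induction k with
    | zero =>
      intro _
      have h1 : p.gp t c i 0 = p.Sx t c i := by
        unfold Par.gp
        rw [zero_mul, add_zero]
        exact min_eq_left s1
      rw [h1]
      exact h0
    | succ k ih =>
      intro hk
      have h1 := ih (by omega)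
      have e1 : (k + 1) * p.tau i = k * p.tau i + p.tau i := by ring
      have hle : p.gp t c i k ≤ p.gp t c i (k + 1) := by
        unfold Par.gp
        rw [e1]
        omega
      have hle2 : p.gp t c i (k + 1) ≤ p.gp t c i k + p.tau i := by
        unfold Par.gp
        rw [e1]
        omega
      exact blk_close p hp om om' hv hv' i _ _ hi hle hle2 (hb k (by omega)) h1.1 h1.2
  have h2 := key (MM * p.L) le_rfl
  have h3 : p.gp t c i (MM * p.L) = p.Ex t c i := by
    unfold Par.gp
    exact min_eq_right s2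
  rw [h3] at h2
  exact h2

lemma trans (hp : p.Ok) (om om' : ℕ → Nz p.d) (hv : ∀ j, p.Valid j (om j))
    (hv' : ∀ j, p.Valid j (om' j)) (t : ℕ) (c : ℕ → ℕ)
    (h1 : p.Compat om t c) (h2 : p.Compat om' t c)
    (he : p.fcode om t c = p.fcode om' t c) (i : ℕ) (hi : i < p.n)
    (h0 : Cl p om om' (i + 1) (p.Sx t c i)) : Cl p om om' i (p.Sx t c i) := by
  have htc : p.tc om t c i = p.tc om' t c i := congrArg Prod.fst (congrFun he ⟨i, hi⟩)
  by_cases ha : t < MM * p.tau (i + 1)
  · have hS : p.Sx t c i = 0 := by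
      unfold Par.Sx
      rw [if_pos ha]
    rw [hS]
    exact cl_zero p hp om om' i
  · by_cases hci : c i = 0
    · have hS : p.Sx t c i = t - MM * p.tau i := by
        unfold Par.Sx
        rw [if_neg ha, if_pos hci]
      rw [hS] at h0 ⊢
      unfold Par.tc at htc
      rw [if_neg ha, if_pos hci, if_neg ha, if_pos hci] at htc
      exact tcL_close p hp om om' i _ htc h0.1 h0.2
    · have hS : p.Sx t c i = p.cand t i (c i) + p.W i := by
        unfold Par.Sx
        rw [if_neg ha, if_neg hci]
      rw [hS] at h0 ⊢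
      unfold Par.tc at htc
      rw [if_neg ha, if_neg hci, if_neg ha, if_neg hci] at htc
      exact tcS_close p hp om om' hv hv' i _ hi (h1 i hi (by omega) hci).1
        (h2 i hi (by omega) hci).1 htc h0.1 h0.2

/-- COMPARISON: two realisations with the same code end near each other -/
theorem fcode_close (hp : p.Ok) (om om' : ℕ → Nz p.d) (hv : ∀ j, p.Valid j (om j))
    (hv' : ∀ j, p.Valid j (om' j)) (t : ℕ) (ht : t ≤ p.tau p.n) (c : ℕ → ℕ)
    (hc : ∀ i, c i ≤ 49) (h1 : p.Compat om t c) (h2 : p.Compat om' t c)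
    (he : p.fcode om t c = p.fcode om' t c) :
    ‖(p.run om t).1 - (p.run om' t).1‖ ≤ 1 ∧ ‖(p.run om t).2 - (p.run om' t).2‖ ≤ 1 := by
  have hn := hp.hn
  have hL : 0 < p.L := by have := hp.hL; omega
  have hH : 0 < p.H := by have := hp.hH; omega
  have key : ∀ m i, i + m + 1 = p.n → Cl p om om' i (p.Sx t c i) := by
    intro m
    induction m with
    | zero =>
      intro i hi
      have htau : 0 < p.tau p.n := by
        unfold Par.tau
        positivity
      have hlt : t < MM * p.tau (i + 1) := by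
        have e1 : i + 1 = p.n := by omega
        rw [e1]
        unfold MM
        omega
      have hS : p.Sx t c i = 0 := by
        unfold Par.Sx
        rw [if_pos hlt]
      rw [hS]
      exact cl_zero p hp om om' i
    | succ m ih =>
      intro i hi
      have h3 := ih (i + 1) (by omega)
      have h4 := stage p hp om om' hv hv' t ht c hc he (i + 1) (by omega) h3
      have h5 : p.Ex t c (i + 1) = p.Sx t c i := by
        unfold Par.Ex
        rw [if_neg (Nat.succ_ne_zero i), Nat.add_sub_cancel]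
      rw [h5] at h4
      exact trans p hp om om' hv hv' t c h1 h2 he i (by omega) h4
  have h3 := key (p.n - 1) 0 (by omega)
  have h4 := stage p hp om om' hv hv' t ht c hc he 0 (by omega) h3
  have h5 : p.Ex t c 0 = t := by
    unfold Par.Ex
    rw [if_pos rfl]
  rw [h5] at h4
  have e1 : p.rho 0 = 1 := by unfold Par.rho; exact pow_zero _
  have e2 : p.xi 0 = 1 := by unfold Par.xi; exact pow_zero _
  unfold Cl at h4
  rw [e1, e2] at h4
  exact ⟨h4.2, h4.1⟩

end KDB.I.D18
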