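import Pool.Agent.Helper37.KDB.Extra

/-! Project KDB, piece K1: Kraft sums of the elementary weights. -/

set_option autoImplicit false

namespace KDB.I.K1

open MeasureTheory KDB
open scoped ENNReal

theorem kr_uw {d : ℕ} (N : ℕ) : ∑' r : Fin d → ℤ, uw N r ≤ 1 := by
  classical
  have h1 : ∀ r ∉ Fintype.piFinset (fun _ : Fin d => Finset.Ico (0 : ℤ) N), uw N r = 0 := by
    intro r hr
    rw [Fintype.mem_piFinset] at hr
    unfold uw
    rw [if_neg]
    intro h
    apply hr
    intro i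
    rw [Finset.mem_Ico]
    exact h i
  rw [tsum_eq_sum h1]
  have h2 : ∀ r ∈ Fintype.piFinset (fun _ : Fin d => Finset.Ico (0 : ℤ) N),
      uw N r ≤ ((N : ℝ≥0∞) ^ d)⁻¹ := by
    intro r _
    unfold uw
    split_ifs
    · exact le_rfl
    · exact bot_le
  refine (Finset.sum_le_sum h2).trans ?_
  rw [Finset.sum_const, Fintype.card_piFinset]
  simp only [Int.card_Ico, sub_zero, Int.toNat_natCast, Finset.prod_const, Finset.card_univ,
    Fintype.card_fin, nsmul_eq_mul]
  push_cast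
  exact ENNReal.mul_inv_le_one _

theorem kr_gw : ∑' n : ℕ, gw n ≤ 1 := by
  have h1 : ∀ n : ℕ, gw n = (2⁻¹ : ℝ≥0∞) ^ (n + 1) := by
    intro n
    unfold gw
    rw [ENNReal.inv_pow]
  simp only [h1]
  rw [ENNReal.tsum_geometric_add_one, ENNReal.one_sub_inv_two, inv_inv]
  exact (ENNReal.inv_mul_cancel (by norm_num) (by norm_num)).le

theorem kr_sw (S : ℕ) : ∑' k : ℕ, sw S k ≤ 1 := by
  have h1 : ∀ k ∉ Finset.range S, sw S k = 0 := by
    intro k hk
    rw [Finset.mem_range] at hk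
    unfold sw
    rw [if_neg hk]
  rw [tsum_eq_sum h1]
  have h2 : ∀ k ∈ Finset.range S, sw S k ≤ (S : ℝ≥0∞)⁻¹ := by
    intro k _
    unfold sw
    split_ifs
    · exact le_rfl
    · exact bot_le
  refine (Finset.sum_le_sum h2).trans ?_
  rw [Finset.sum_const, Finset.card_range, nsmul_eq_mul]
  exact ENNReal.mul_inv_le_one _

end KDB.I.K1
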